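import Mathlib

open Set Filter Topology

namespace Pool.Agent.Results.MP_49f1ce_an.SparseShift

/-- The left shift. -/
def σ {A : Type} (y : ℤ → A) : ℤ → A := fun i => y (i + 1)

/-- The shift restricted to an invariant set. -/
def S {A : Type} {X : Set (ℤ → A)} (h : ∀ y, y ∈ X ↔ σ y ∈ X) (y : X) : X := ⟨σ y, (h y).1 y.2⟩

/-- The region under the roof. -/
abbrev Dom {Y : Type} (r : Y → ℝ) : Type := {p : Y × ℝ // 0 ≤ p.2 ∧ p.2 ≤ r p.1}

/-- The suspension space: identify `(x, r x)` with `(T x, 0)`; quotient topology. -/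
abbrev Susp {Y : Type} (T : Y → Y) (r : Y → ℝ) : Type :=
  Quot fun p q : Dom r => p.1.2 = r p.1.1 ∧ q.1 = (T p.1.1, 0)

/-- The graph of the time `t` map (`t ≥ 0`) of the suspension flow. -/
def Flow {Y : Type} (T : Y → Y) (r : Y → ℝ) (t : ℝ) (a b : Susp T r) : Prop :=
  ∃ (p q : Dom r) (n : ℕ), a = Quot.mk _ p ∧ b = Quot.mk _ q ∧ q.1.1 = T^[n] p.1.1 ∧
    q.1.2 = p.1.2 + t - ∑ k ∈ Finset.range n, r (T^[k] p.1.1)

/-- The suspension flow is topologically mixing. -/
def Mixing {Y : Type} [TopologicalSpace Y] (T : Y → Y) (r : Y → ℝ) : Prop :=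
  ∀ U V : Set (Susp T r), IsOpen U → IsOpen V → U.Nonempty → V.Nonempty →
    ∃ t₀ : ℝ, ∀ t ≥ t₀, ∃ a ∈ U, ∃ b ∈ V, Flow T r t a b

def P (i : ℤ) : Prop := ∃ F : Finset ℕ, i = ∑ k ∈ F, (10 : ℤ) ^ k

open Classical in
noncomputable def sx (n : ℤ) : ℤ → Bool := fun i => decide (P (n + i))

def X : Set (ℤ → Bool) := closure (range sx)

lemma low (k : ℕ) (F : Finset ℕ) (h : ∀ i ∈ F, i < k) :
    0 ≤ ∑ i ∈ F, (10 : ℤ) ^ i ∧ 9 * ∑ i ∈ F, (10 : ℤ) ^ i < 10 ^ k := by
  refine ⟨Finset.sum_nonneg fun _ _ => by positivity, ?_⟩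
  have h1 : ∑ i ∈ F, (10 : ℤ) ^ i ≤ ∑ i ∈ Finset.range k, 10 ^ i :=
    Finset.sum_le_sum_of_subset_of_nonneg (fun i hi => Finset.mem_range.2 (h i hi))
      fun _ _ _ => by positivity
  have h2 := geom_sum_mul (10 : ℤ) k
  linarith

lemma split (k : ℕ) {i : ℤ} (h : P i) : ∃ m e : ℤ, i = 10 ^ k * m + e ∧ 0 ≤ e ∧ 9 * e < 10 ^ k := by
  obtain ⟨F, rfl⟩ := h
  obtain ⟨m, hm⟩ : (10 : ℤ) ^ k ∣ ∑ i ∈ F.filter (fun i => ¬ i < k), (10 : ℤ) ^ i :=
    Finset.dvd_sum fun i hi => pow_dvd_pow _ (not_lt.1 (Finset.mem_filter.1 hi).2)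
  have := low k (F.filter (· < k)) fun i hi => (Finset.mem_filter.1 hi).2
  exact ⟨m, _, by rw [← hm, add_comm, Finset.sum_filter_add_sum_filter_not], this⟩

lemma gap (k : ℕ) {i j : ℤ} (hi : P i) (hj : P j) :
    9 * (j - i) < 10 ^ k ∨ 8 * 10 ^ k < 9 * (j - i) := by
  obtain ⟨m, e, rfl, h1, h2⟩ := split k hi
  obtain ⟨m', e', rfl, h1', h2'⟩ := split k hj
  have p : (0 : ℤ) < 10 ^ k := by positivity
  rcases le_or_gt m' m with h | h
  · left; nlinarith
  · right; nlinarith [mul_le_mul_of_nonneg_left (show m + 1 ≤ m' by omega) p.le]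

lemma opn (i : ℤ) (b : Bool) : IsOpen {z : ℤ → Bool | z i = b} :=
  (isOpen_discrete {b}).preimage (continuous_apply (A := fun _ : ℤ => Bool) i)

lemma sx_false {n i : ℤ} (h : n + i < 0) : sx n i = false := by
  have : ¬ P (n + i) := by
    rintro ⟨F, hF⟩
    have : 0 ≤ ∑ k ∈ F, (10 : ℤ) ^ k := Finset.sum_nonneg fun _ _ => by positivity
    omega
  simp [sx, this]

lemma sx_true {n i : ℤ} (h : n + i = 0) : sx n i = true := by
  have : P (n + i) := ⟨∅, by simp [h]⟩
  simp [sx, this]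

lemma gapX {y : ℤ → Bool} (hy : y ∈ X) (k : ℕ) (i j : ℤ) (hi : y i = true) (hj : y j = true) :
    9 * (j - i) < 10 ^ k ∨ 8 * 10 ^ k < 9 * (j - i) := by
  by_contra hc
  have o : IsOpen {z : ℤ → Bool | z i = true ∧ z j = true} :=
    (opn i true).inter (opn j true)
  obtain ⟨_, ⟨h1, h2⟩, n, rfl⟩ := mem_closure_iff.1 hy _ o ⟨hi, hj⟩
  simp only [sx, decide_eq_true_eq] at h1 h2
  have := gap k h1 h2
  rw [show n + j - (n + i) = j - i by ring] at this
  exact hc this

lemma recur (j : ℤ) : ∀ᶠ k : ℕ in atTop, (P (10 ^ k + j) ↔ P j) := by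
  have : Tendsto (fun k : ℕ => (10 : ℤ) ^ k) atTop atTop :=
    tendsto_pow_atTop_atTop_of_one_lt (by norm_num)
  filter_upwards [this.eventually_gt_atTop (2 * |j|)] with k hk
  have a1 := le_abs_self j
  have a2 := neg_abs_le j
  have single : ∀ (F : Finset ℕ), ∀ i ∈ F, (10 : ℤ) ^ i ≤ ∑ i ∈ F, (10 : ℤ) ^ i := fun F i hi =>
    Finset.single_le_sum (f := fun i => (10 : ℤ) ^ i) (fun _ _ => by positivity) hi
  constructor
  · rintro ⟨F, hF⟩
    by_cases h : k ∈ F
    · exact ⟨F.erase k, by rw [← Finset.add_sum_erase _ _ h] at hF; linarith⟩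
    · have := (low k F fun i hi => by
        by_contra hc
        have h1 : k + 1 ≤ i := by
          rcases (not_lt.1 hc).eq_or_lt with e | e
          · exact (h (e ▸ hi)).elim
          · exact e
        have h2 : (10 : ℤ) ^ (k + 1) ≤ 10 ^ i := pow_le_pow_right₀ (by norm_num) h1
        have := single F i hi
        rw [pow_succ] at h2
        linarith [abs_nonneg j]).2
      linarith [abs_nonneg j]
  · rintro ⟨F, hF⟩
    have h : k ∉ F := fun h => by
      have := single F k h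
      linarith [abs_nonneg j]
    exact ⟨insert k F, by rw [Finset.sum_insert h, hF]⟩

lemma sx_mem (n : ℤ) : sx n ∈ X := subset_closure ⟨n, rfl⟩

lemma inv (y : ℤ → Bool) : y ∈ X ↔ σ y ∈ X := by
  constructor
  · intro h
    refine map_mem_closure (f := σ) (continuous_pi fun i => continuous_apply _) h ?_
    rintro _ ⟨n, rfl⟩
    exact ⟨n + 1, by ext i; simp [σ, sx, add_assoc, add_comm 1 i]⟩
  · intro h
    have := map_mem_closure (f := fun z : ℤ → Bool => fun i => z (i - 1)) (t := range sx)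
      (continuous_pi fun i => continuous_apply _) h (by
        rintro _ ⟨n, rfl⟩
        exact ⟨n - 1, by ext i; simp [sx, show n - 1 + i = n + (i - 1) by ring]⟩)
    simpa [σ, X] using this

lemma iter (n : ℕ) (y : X) (i : ℤ) : ((S inv)^[n] y).1 i = y.1 (i + n) := by
  induction n generalizing y with
  | zero => simp
  | succ n ih => rw [Function.iterate_succ_apply, ih]; simp [S, σ, add_assoc]

lemma tend0 : Tendsto (fun m : ℕ => sx (-m)) atTop (𝓝 fun _ => false) := by
  refine tendsto_pi_nhds.2 fun i => tendsto_const_nhds.congr' ?_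
  filter_upwards [eventually_gt_atTop i.toNat] with m hm
  exact (sx_false (by omega)).symm

lemma zero_mem : (fun _ => false) ∈ X :=
  mem_closure_of_tendsto tend0 (Eventually.of_forall fun _ => ⟨_, rfl⟩)

noncomputable def f (y : ℤ → Bool) (j : ℕ) : ℝ := if y j = true then 1 / ((j : ℝ) + 1) else 0

lemma f_le (y : ℤ → Bool) (j : ℕ) : 0 ≤ f y j ∧ f y j ≤ 1 / ((j : ℝ) + 1) := by
  unfold f; split_ifs <;> simp <;> positivity

lemma f_le1 (y : ℤ → Bool) (j : ℕ) : f y j ≤ 1 :=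
  (f_le y j).2.trans ((div_le_one (by positivity)).2 (by simp))

lemma bdd (y : ℤ → Bool) : BddAbove (range (f y)) := ⟨1, by rintro _ ⟨j, rfl⟩; exact f_le1 y j⟩

noncomputable def R (y : ℤ → Bool) : ℝ := 1 + ⨆ j, f y j

lemma R_ge (y : ℤ → Bool) (j : ℕ) : 1 + f y j ≤ R y := by
  have := le_ciSup (bdd y) j
  unfold R; linarith

lemma R_bd (y : ℤ → Bool) : 1 ≤ R y ∧ R y ≤ 2 := by
  have := R_ge y 0
  have h2 : ⨆ j, f y j ≤ 1 := ciSup_le (f_le1 y)
  unfold R at *
  constructor <;> linarith [(f_le y 0).1]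

lemma R_close (y z : ℤ → Bool) (N : ℕ) (h : ∀ j < N, z (j : ℕ) = y (j : ℕ)) :
    R z ≤ R y + 1 / ((N : ℝ) + 1) := by
  have : ⨆ j, f z j ≤ R y - 1 + 1 / ((N : ℝ) + 1) := ciSup_le fun j => by
    by_cases hj : j < N
    · have : f z j = f y j := by simp [f, h j hj]
      have h2 : 0 ≤ 1 / ((N : ℝ) + 1) := by positivity
      linarith [R_ge y j]
    · have : 1 / ((j : ℝ) + 1) ≤ 1 / ((N : ℝ) + 1) := Nat.one_div_le_one_div (not_lt.1 hj)
      linarith [(f_le z j).2, (R_bd y).1]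
  unfold R at *
  linarith

lemma R_cont : Continuous R := by
  refine continuous_iff_continuousAt.2 fun y => Metric.tendsto_nhds.2 fun ε hε => ?_
  obtain ⟨N, hN⟩ := exists_nat_one_div_lt hε
  have : ∀ᶠ z in 𝓝 y, ∀ j ∈ Finset.range N, z (j : ℕ) = y (j : ℕ) :=
    (Finset.eventually_all _).2 fun j _ =>
      (opn _ _).mem_nhds rfl
  filter_upwards [this] with z hz
  have a := R_close y z N fun j hj => hz j (Finset.mem_range.2 hj)
  have b := R_close z y N fun j hj => (hz j (Finset.mem_range.2 hj)).symm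
  rw [Real.dist_eq, abs_lt]
  constructor <;> linarith

lemma notmix : ¬ Mixing (S inv) fun y : X => R y := by
  intro hm
  let G : Dom (fun y : X => R y) → ℝ := fun p =>
    (if p.1.1.1 0 = true then 1 else 0) * max 0 (min p.1.2 (1 - p.1.2))
  have cG : Continuous G := by
    refine Continuous.mul ?_ (by fun_prop)
    exact (continuous_of_discreteTopology (f := fun b : Bool => if b = true then (1 : ℝ) else 0)).comp
      ((continuous_apply (A := fun _ : ℤ => Bool) 0).comp (continuous_subtype_val.comp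
        (continuous_fst.comp continuous_subtype_val)))
  let F : Susp (S inv) (fun y : X => R y) → ℝ := Quot.lift G (by
    rintro p q ⟨h1, h2⟩
    have a : max 0 (min p.1.2 (1 - p.1.2)) = 0 :=
      max_eq_left ((min_le_right _ _).trans (by linarith [(R_bd p.1.1.1).1]))
    simp [G, a, h2])
  have cF : Continuous F := continuous_quot_lift _ cG
  have o : IsOpen {a | 0 < F a} := isOpen_lt continuous_const cF
  have ne : {a | 0 < F a}.Nonempty := ⟨Quot.mk _ ⟨(⟨sx 0, sx_mem 0⟩, 1 / 2), by norm_num, by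
    linarith [(R_bd (sx 0)).1]⟩, by
      have : sx 0 0 = true := sx_true rfl
      simp [F, G, this]; norm_num⟩
  have key : ∀ p : Dom (fun y : X => R y), 0 < G p → p.1.1.1 0 = true ∧ 0 < p.1.2 ∧ p.1.2 < 1 := by
    intro p hp
    by_cases h : p.1.1.1 0 = true
    · simpa [G, h] using hp
    · simp [G, h] at hp
  obtain ⟨t₀, ht⟩ := hm _ _ o o ne ne
  obtain ⟨k, hk⟩ := ((tendsto_pow_atTop_atTop_of_one_lt
    (show (1 : ℝ) < 10 by norm_num)).eventually_ge_atTop (max (2 * t₀) 100)).exists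
  obtain ⟨_, ha, _, hb, p, q, n, rfl, rfl, e1, e2⟩ :=
    ht (10 ^ k / 2) (by linarith [le_max_left (2 * t₀) 100])
  obtain ⟨a1, a2, a3⟩ := key p ha
  obtain ⟨b1, b2, b3⟩ := key q hb
  rw [e1, iter] at b1
  have s1 : (n : ℝ) ≤ ∑ k ∈ Finset.range n, R ((S inv)^[k] p.1.1).1 := by
    simpa using Finset.sum_le_sum (s := Finset.range n) fun k _ => (R_bd ((S inv)^[k] p.1.1).1).1
  have s2 : ∑ k ∈ Finset.range n, R ((S inv)^[k] p.1.1).1 ≤ n * 2 := by
    simpa using Finset.sum_le_sum (s := Finset.range n) fun k _ => (R_bd ((S inv)^[k] p.1.1).1).2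
  have g := gapX p.1.1.2 k _ _ a1 b1
  have hk' := le_max_right (2 * t₀) 100
  rw [zero_add, sub_zero] at g
  rcases g with g | g
  · have : (9 * n : ℝ) < 10 ^ k := by exact_mod_cast g
    linarith
  · have : (8 * 10 ^ k : ℝ) < 9 * n := by exact_mod_cast g
    linarith

theorem result : ∃ (X : Set (ℤ → Bool)) (hX : ∀ y, y ∈ X ↔ σ y ∈ X) (r : X → ℝ),
    X.Nonempty ∧ IsClosed X ∧
    (∀ U V : Set X, IsOpen U → IsOpen V → U.Nonempty → V.Nonempty →
      ∃ n ≥ 1, ∃ y ∈ U, (S hX)^[n] y ∈ V) ∧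
    {y : X | ∃ n ≥ 1, (S hX)^[n] y = y}.Finite ∧
    Continuous r ∧ (∀ y, 0 < r y) ∧ ¬ Mixing (S hX) r ∧
    ¬ ∃ (g h : X → ℝ) (N : ℕ), Continuous h ∧
      (∀ y z : X, (∀ j : ℤ, |j| ≤ N → y.1 j = z.1 j) → g y = g z) ∧
      ∀ y, r y - g y = h (S hX y) - h y := by
  refine ⟨X, inv, fun y => R y, ⟨_, zero_mem⟩, isClosed_closure, ?_, ?_,
    R_cont.comp continuous_subtype_val, fun y => by linarith [(R_bd y).1], notmix, ?_⟩
  · rintro _ _ ⟨U, hU, rfl⟩ ⟨V, hV, rfl⟩ ⟨u, hu⟩ ⟨v, hv⟩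
    obtain ⟨_, ha, a, rfl⟩ := mem_closure_iff.1 u.2 _ hU hu
    obtain ⟨_, hb, b, rfl⟩ := mem_closure_iff.1 v.2 _ hV hv
    have t : Tendsto (fun k : ℕ => sx (10 ^ k + b)) atTop (𝓝 (sx b)) := by
      refine tendsto_pi_nhds.2 fun i => tendsto_const_nhds.congr' ?_
      filter_upwards [recur (b + i)] with k hk
      simp [sx, add_assoc, hk]
    have t2 : Tendsto (fun k : ℕ => (10 : ℤ) ^ k) atTop atTop :=
      tendsto_pow_atTop_atTop_of_one_lt (by norm_num)
    obtain ⟨k, h1, h2⟩ := ((t.eventually (hV.mem_nhds hb)).and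
      (t2.eventually_gt_atTop (a - b))).exists
    refine ⟨(10 ^ k + b - a).toNat, by omega, ⟨sx a, sx_mem a⟩, ha, ?_⟩
    have : ((S inv)^[(10 ^ k + b - a).toNat] ⟨sx a, sx_mem a⟩).1 = sx (10 ^ k + b) := by
      ext i
      rw [iter, Int.toNat_of_nonneg (by omega)]
      simp [sx, show a + (i + (10 ^ k + b - a)) = 10 ^ k + b + i by ring]
    rw [mem_preimage, this]
    exact h1
  · refine (finite_singleton (⟨_, zero_mem⟩ : X)).subset ?_
    rintro y ⟨n, hn, h⟩
    refine Subtype.ext (funext fun i => ?_)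
    by_contra hi
    have hi' : y.1 i = true := by simpa using hi
    have hm : ∀ m : ℕ, y.1 (i + (n * m : ℕ)) = true := fun m => by
      rw [← iter, Function.iterate_mul, Function.iterate_fixed h]; exact hi'
    have big : 9 * n < 10 ^ (n + 1) := by
      have := Nat.lt_pow_self (n := n) (show 1 < 10 by norm_num)
      rw [pow_succ]; omega
    set K := 10 ^ (n + 1) with hK
    have g := gapX y.2 (n + 1) _ _ hi' (hm (K / (9 * n) + 1))
    have d1 := Nat.div_add_mod K (9 * n)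
    have d2 := Nat.mod_lt K (show 0 < 9 * n by omega)
    have e : (10 : ℤ) ^ (n + 1) = (K : ℤ) := by simp [hK]
    rw [e, add_sub_cancel_left] at g
    have e2 : 9 * (n * (K / (9 * n) + 1)) = 9 * n * (K / (9 * n)) + 9 * n := by ring
    omega
  · rintro ⟨g, h, N, ch, hg, e⟩
    let z : X := ⟨_, zero_mem⟩
    let u : ℕ → X := fun m => ⟨sx (-m), sx_mem _⟩
    have gz : g z = 1 := by
      have h1 : R z.1 - _ = _ := e z
      have h2 : S inv z = z := rfl
      have h3 : R z.1 = 1 := by simp [R, f, z]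
      rw [h2, h3] at h1
      linarith
    have st : ∀ m, 1 / (((N + m : ℕ) : ℝ) + 1 + 1) ≤ h (u (N + m)) - h (u (N + m + 1)) := by
      intro m
      have h1 := e (u (N + m + 1))
      have h2 : S inv (u (N + m + 1)) = u (N + m) := by
        refine Subtype.ext (funext fun i => ?_)
        simp only [S, σ, u, sx]
        congr 2; push_cast; ring
      have h3 : g (u (N + m + 1)) = g z := hg _ _ fun j hj => sx_false (by
          have := le_abs_self j
          omega)
      have h4 := R_ge (sx (-(N + m + 1 : ℕ))) (N + m + 1)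
      have h5 : f (sx (-(N + m + 1 : ℕ))) (N + m + 1) = 1 / (((N + m : ℕ) : ℝ) + 1 + 1) := by
        have : sx (-(N + m + 1 : ℕ)) (N + m + 1 : ℕ) = true := sx_true (by omega)
        rw [f, if_pos this]; push_cast; ring
      rw [h2, h3, gz] at h1
      simp only [u] at h1 ⊢
      linarith
    have tu : Tendsto (fun m => h (u (N + m))) atTop (𝓝 (h z)) :=
      ((ch.tendsto z).comp (tendsto_subtype_rng.2 tend0)).comp
        (tendsto_add_atTop_nat N |>.congr fun m => add_comm _ _)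
    have sm : Summable fun m : ℕ => 1 / (((N + m : ℕ) : ℝ) + 1 + 1) := by
      obtain ⟨B, hB⟩ := tu.bddBelow_range
      refine summable_of_sum_range_le (c := h (u N) - B) (fun m => by positivity) fun n => ?_
      refine (Finset.sum_le_sum fun m _ => st m).trans ?_
      have := Finset.sum_range_sub' (fun m => h (u (N + m))) n
      simp only [add_zero, ← add_assoc] at this
      rw [this]
      linarith [hB ⟨n, rfl⟩]
    refine Real.not_summable_one_div_natCast ((summable_nat_add_iff (N + 2)).1 (sm.congr fun m => ?_))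
    push_cast; ring

end Pool.Agent.Results.MP_49f1ce_an.SparseShift
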